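import Mathlib
import Pool.Agent.H54.PA.Lin

/-!
# From fields to commutative rings

A class of groups with `Inherits`, `Extension` and the solvable groups which contains `GL n F` for all fields `F`
contains `GL n A` for all commutative rings `A`.

PROOF. `A` is the directed union of its finitely generated subrings, so `A` is noetherian. The homomorphism
`f : A → ∏ Frac (A / p)`, `p` the (finitely many) minimal primes, has kernel the nilradical, a nilpotent ideal.
`GL n (∏ F_p) = ∏ GL n F_p`. If `f : A → B` has kernel `I`, `I ^ k = 0`, then `C (GL n B) → C (GL n A)`, by induction on `k`: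
`J = I ^ (k - 1)`, `J ^ 2 = 0`, `A → A / J`, the kernel of `GL n A → GL n (A / J)` is abelian.
-/

set_option autoImplicit false

namespace Pool.Agent.H75.GR

open Pool.Agent.H98.FJ

variable {C : (G : Type) → [Group G] → Prop}

private theorem gr_map_inj {A B : Type} [CommRing A] [CommRing B] (n : ℕ) (f : A →+* B)
    (hf : Function.Injective f) :
    Function.Injective (Matrix.GeneralLinearGroup.map (n := Fin n) f) := by
  intro g h hgh
  apply Units.ext
  ext i j
  apply hf
  have h1 := congrArg (fun x : Matrix.GeneralLinearGroup (Fin n) B => x.val i j) hgh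
  exact h1

/-- square zero kernels -/
theorem sq_zero (hC : Inherits C) (hE : Extension C)
    (hS : ∀ (G : Type) [Group G], Group.IsSolvable G → C G) (n : ℕ) {A B : Type} [CommRing A] [CommRing B]
    (f : A →+* B) (hf : ∀ x y : A, f x = 0 → f y = 0 → x * y = 0)
    (hB : C (Matrix.GeneralLinearGroup (Fin n) B)) : C (Matrix.GeneralLinearGroup (Fin n) A) := by
  refine Pool.Agent.H54.PA.ext_sol hC hE hS (Matrix.GeneralLinearGroup.map (n := Fin n) f) hB ?_
  intro x y hx hy
  have key : ∀ z : Matrix.GeneralLinearGroup (Fin n) A, Matrix.GeneralLinearGroup.map (n := Fin n) f z = 1 →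
      ∀ i j, f ((z.val - 1) i j) = 0 := by
    intro z hz i j
    have h1 := congrArg (fun w : Matrix.GeneralLinearGroup (Fin n) B => w.val i j) hz
    have h2 : f (z.val i j) = (1 : Matrix (Fin n) (Fin n) B) i j := h1
    rw [Matrix.sub_apply, map_sub, h2, Matrix.one_apply, Matrix.one_apply]
    split_ifs
    · rw [map_one, sub_self]
    · rw [map_zero, sub_self]
  have h0 : ∀ z w : Matrix.GeneralLinearGroup (Fin n) A, Matrix.GeneralLinearGroup.map (n := Fin n) f z = 1 →
      Matrix.GeneralLinearGroup.map (n := Fin n) f w = 1 → (z.val - 1) * (w.val - 1) = 0 := by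
    intro z w hz hw
    ext i j
    rw [Matrix.mul_apply]
    refine Finset.sum_eq_zero fun k _ => ?_
    exact hf _ _ (key z hz i k) (key w hw k j)
  apply Units.ext
  have h1 := h0 x y hx hy
  have h2 := h0 y x hy hx
  show x.val * y.val = y.val * x.val
  have e1 : (x.val - 1) * (y.val - 1) = x.val * y.val - x.val - y.val + 1 := by noncomm_ring
  have e2 : (y.val - 1) * (x.val - 1) = y.val * x.val - x.val - y.val + 1 := by noncomm_ring
  rw [e1] at h1
  rw [e2] at h2
  have h3 := h1.trans h2.symm
  have h4 := add_right_cancel h3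
  have h5 := sub_left_injective h4
  exact sub_left_injective h5

/-- nilpotent kernels -/
theorem nil_ker (hC : Inherits C) (hE : Extension C)
    (hS : ∀ (G : Type) [Group G], Group.IsSolvable G → C G) (n k : ℕ) :
    ∀ {A B : Type} [CommRing A] [CommRing B] (f : A →+* B), (RingHom.ker f) ^ k = ⊥ →
      C (Matrix.GeneralLinearGroup (Fin n) B) → C (Matrix.GeneralLinearGroup (Fin n) A) := by
  induction k with
  | zero =>
    intro A B _ _ f hf _
    have h1 : (1 : A) = 0 := by
      have h2 : (1 : A) ∈ (⊤ : Ideal A) := trivial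
      rw [pow_zero, Ideal.one_eq_top] at hf
      rw [hf] at h2
      exact h2
    have hs : Subsingleton A := subsingleton_of_zero_eq_one h1.symm
    have : Subsingleton (Matrix.GeneralLinearGroup (Fin n) A) := by
      refine ⟨fun g h => Units.ext ?_⟩
      ext i j
      exact Subsingleton.elim _ _
    exact hC.fin _ inferInstance
  | succ k ih =>
    intro A B _ _ f hf hB
    rcases Nat.eq_zero_or_pos k with hk | hk
    · subst hk
      rw [zero_add, pow_one] at hf
      exact hC.of_injective _ (gr_map_inj n f ((RingHom.injective_iff_ker_eq_bot f).2 hf)) hB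
    · have hle : (RingHom.ker f) ^ k ≤ RingHom.ker f := Ideal.pow_le_self (by omega)
      obtain ⟨J, hJ⟩ : ∃ J : Ideal A, J = (RingHom.ker f) ^ k := ⟨_, rfl⟩
      have hJf : ∀ a ∈ J, f a = 0 := fun a ha => by
        rw [hJ] at ha
        exact hle ha
      have h1 : C (Matrix.GeneralLinearGroup (Fin n) (A ⧸ J)) := by
        refine ih (Ideal.Quotient.lift J f hJf) ?_ hB
        have h9 : RingHom.ker (Ideal.Quotient.lift J f hJf) = (RingHom.ker f).map (Ideal.Quotient.mk J) :=
          Ideal.ker_quotient_lift f hJf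
        rw [h9, ← Ideal.map_pow, ← hJ, Ideal.map_quotient_self]
      refine sq_zero hC hE hS n (Ideal.Quotient.mk J) ?_ h1
      intro x y hx hy
      rw [Ideal.Quotient.eq_zero_iff_mem] at hx hy
      have h2 : x * y ∈ J * J := Ideal.mul_mem_mul hx hy
      have h3 : J * J ≤ (RingHom.ker f) ^ (k + 1) := by
        rw [hJ, ← pow_add]
        exact Ideal.pow_le_pow_right (by omega)
      have h4 := h3 h2
      rw [hf] at h4
      exact h4

/-- finite products -/
theorem prod_mem (hC : Inherits C) (n : ℕ) {ι : Type} [Finite ι] (F : ι → Type) [∀ i, CommRing (F i)]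
    (hF : ∀ i, C (Matrix.GeneralLinearGroup (Fin n) (F i))) : C (Matrix.GeneralLinearGroup (Fin n) (∀ i, F i)) := by
  let φ : Matrix.GeneralLinearGroup (Fin n) (∀ i, F i) →* (∀ i, Matrix.GeneralLinearGroup (Fin n) (F i)) :=
    { toFun := fun g i => Matrix.GeneralLinearGroup.map (Pi.evalRingHom F i) g
      map_one' := by
        funext i
        exact map_one _
      map_mul' := by
        intro g h
        funext i
        exact map_mul _ g h }
  refine hC.of_injective φ ?_ (hC.pi ι inferInstance _ hF)
  intro g h hgh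
  apply Units.ext
  ext i j k
  have h1 := congrFun hgh k
  exact congrArg (fun x : Matrix.GeneralLinearGroup (Fin n) (F k) => x.val i j) h1

/-- noetherian rings -/
theorem noeth_mem (hC : Inherits C) (hE : Extension C)
    (hS : ∀ (G : Type) [Group G], Group.IsSolvable G → C G) (n : ℕ)
    (hF : ∀ (F : Type) [Field F], C (Matrix.GeneralLinearGroup (Fin n) F)) (A : Type) [CommRing A]
    [IsNoetherianRing A] : C (Matrix.GeneralLinearGroup (Fin n) A) := by
  have hfin : Finite (minimalPrimes A) := Set.Finite.to_subtype (minimalPrimes.finite_of_isNoetherianRing A)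
  have hp : ∀ p : minimalPrimes A, p.1.IsPrime := fun p => Ideal.IsMinimalPrime.isPrime p.2
  obtain ⟨k, hk⟩ := IsNoetherianRing.isNilpotent_nilradical A
  let f : A →+* (∀ p : minimalPrimes A, FractionRing (A ⧸ p.1)) :=
    RingHom.pi fun p => (algebraMap (A ⧸ p.1) (FractionRing (A ⧸ p.1))).comp (Ideal.Quotient.mk p.1)
  refine nil_ker hC hE hS n k f ?_ ?_
  · have hle : RingHom.ker f ≤ nilradical A := by
      intro a ha
      rw [nilradical, ← Ideal.sInf_minimalPrimes, Ideal.mem_sInf]
      intro p hpm
      have hprime := hp ⟨p, hpm⟩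
      have h1 := congrFun ((RingHom.mem_ker).1 ha) ⟨p, hpm⟩
      have h2 : algebraMap (A ⧸ p) (FractionRing (A ⧸ p)) (Ideal.Quotient.mk p a) = 0 := h1
      have h3 : Ideal.Quotient.mk p a = 0 := by
        apply IsFractionRing.injective (A ⧸ p) (FractionRing (A ⧸ p))
        rw [h2, map_zero]
      exact Ideal.Quotient.eq_zero_iff_mem.1 h3
    rw [eq_bot_iff]
    calc (RingHom.ker f) ^ k ≤ (nilradical A) ^ k := Ideal.pow_right_mono hle k
      _ = ⊥ := hk
  · refine prod_mem hC n _ fun p => ?_
    have hprime := hp p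
    let i : Field (FractionRing (A ⧸ p.1)) := inferInstance
    exact hF (FractionRing (A ⧸ p.1))

private theorem gr_lift {A : Type} [CommRing A] (n : ℕ) (S : Subring A) (g : Matrix.GeneralLinearGroup (Fin n) A)
    (h1 : ∀ i j, g.val i j ∈ S) (h2 : ∀ i j, (g⁻¹).val i j ∈ S) :
    ∃ g' : Matrix.GeneralLinearGroup (Fin n) S, Matrix.GeneralLinearGroup.map (n := Fin n) S.subtype g' = g := by
  have hinj : Function.Injective (S.subtype.mapMatrix (m := Fin n)) := by
    intro x y hxy
    ext i j
    exact congrFun (congrFun hxy i) j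
  obtain ⟨m, hm⟩ : ∃ m : Matrix (Fin n) (Fin n) S, S.subtype.mapMatrix m = g.val :=
    ⟨Matrix.of fun i j => ⟨g.val i j, h1 i j⟩, by
      ext i j
      rfl⟩
  obtain ⟨m', hm'⟩ : ∃ m : Matrix (Fin n) (Fin n) S, S.subtype.mapMatrix m = (g⁻¹).val :=
    ⟨Matrix.of fun i j => ⟨(g⁻¹).val i j, h2 i j⟩, by
      ext i j
      rfl⟩
  have e1 : m * m' = 1 := by
    apply hinj
    rw [map_mul, map_one, hm, hm']
    exact g.mul_inv
  have e2 : m' * m = 1 := by
    apply hinj
    rw [map_mul, map_one, hm, hm']
    exact g.inv_mul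
  refine ⟨⟨m, m', e1, e2⟩, ?_⟩
  apply Units.ext
  exact hm

private theorem gr_mono {A : Type} [CommRing A] (n : ℕ) (S T : Subring A) (h : S ≤ T) :
    (Matrix.GeneralLinearGroup.map (n := Fin n) S.subtype).range ≤
      (Matrix.GeneralLinearGroup.map (n := Fin n) T.subtype).range := by
  rintro _ ⟨g, rfl⟩
  obtain ⟨g', hg'⟩ := gr_lift n T (Matrix.GeneralLinearGroup.map (n := Fin n) S.subtype g)
    (fun i j => h (g.val i j).2) (fun i j => h ((g⁻¹).val i j).2)
  exact ⟨g', hg'⟩

private theorem gr_range (hC : Inherits C) {A : Type} [CommRing A] (n : ℕ) (S : Subring A)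
    (h : C (Matrix.GeneralLinearGroup (Fin n) S)) :
    C (Matrix.GeneralLinearGroup.map (n := Fin n) S.subtype).range :=
  hC.iso _ _ (MonoidHom.ofInjective (gr_map_inj n S.subtype Subtype.val_injective)) h

private theorem gr_cover {A : Type} [CommRing A] (n : ℕ) (g : Matrix.GeneralLinearGroup (Fin n) A) :
    ∃ s : Finset A, ∀ i j, g.val i j ∈ s ∧ (g⁻¹).val i j ∈ s := by
  classical
  refine ⟨(Finset.univ.image fun p : Fin n × Fin n => g.val p.1 p.2) ∪
    (Finset.univ.image fun p : Fin n × Fin n => (g⁻¹).val p.1 p.2), fun i j => ⟨?_, ?_⟩⟩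
  · exact Finset.mem_union_left _ (Finset.mem_image.2 ⟨(i, j), Finset.mem_univ _, rfl⟩)
  · exact Finset.mem_union_right _ (Finset.mem_image.2 ⟨(i, j), Finset.mem_univ _, rfl⟩)

/-- all commutative rings -/
theorem ring_mem (hC : Inherits C) (hE : Extension C)
    (hS : ∀ (G : Type) [Group G], Group.IsSolvable G → C G) (n : ℕ)
    (hF : ∀ (F : Type) [Field F], C (Matrix.GeneralLinearGroup (Fin n) F)) (A : Type) [CommRing A] :
    C (Matrix.GeneralLinearGroup (Fin n) A) := by
  classical
  obtain ⟨S, hS1, hS2, hS3⟩ : ∃ S : Finset A → Subring A, (∀ s t, s ≤ t → S s ≤ S t) ∧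
      (∀ s, ∀ a ∈ s, a ∈ S s) ∧ (∀ s, IsNoetherianRing (S s)) :=
    ⟨fun s => Subring.closure (s : Set A), fun s t hst => Subring.closure_mono (by exact_mod_cast hst),
      fun s a ha => Subring.subset_closure (by exact_mod_cast ha),
      fun s => is_noetherian_subring_closure _ s.finite_toSet⟩
  refine hC.union (ι := Finset A)
    (fun s => (Matrix.GeneralLinearGroup.map (n := Fin n) (S s).subtype).range) ?_ ?_ ?_
  · exact fun s t hst => gr_mono n _ _ (hS1 s t hst)
  · intro g
    obtain ⟨s, hs⟩ := gr_cover n g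
    obtain ⟨g', hg'⟩ := gr_lift n (S s) g (fun i j => hS2 s _ (hs i j).1) (fun i j => hS2 s _ (hs i j).2)
    exact ⟨s, ⟨g', hg'⟩⟩
  · intro s
    have hn : IsNoetherianRing (S s) := hS3 s
    exact gr_range hC n (S s) (noeth_mem hC hE hS n hF (S s))

end Pool.Agent.H75.GR
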